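import Pool.Agent.W548.MQ.Stm

set_option autoImplicit false

open WithZero IsDedekindDomain

namespace W289.MQ

open W548.MQ

universe u

section forms

variable {K : Type*} [Field K]

lemma form_sq (a b : Kˣ) : form (a * b ^ 2) = form a := by
  unfold form
  rw [Ideal.Quotient.eq]
  exact Ideal.subset_span (Rel.sq a b)

lemma form_hyp (a : Kˣ) : form a + form (-a) = 0 := by
  unfold form
  rw [← map_add, Ideal.Quotient.eq_zero_iff_mem]
  exact Ideal.subset_span (Rel.hyp a)

lemma form_add (a b c : Kˣ) (h : (a : K) + b = c) :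
    form a + form b = form c + form (a * b * c) := by
  have h1 := Ideal.Quotient.eq_zero_iff_mem.2 (Ideal.subset_span (Rel.add a b c h) :
    _ ∈ Ideal.span {x | Rel K x})
  rw [map_sub, map_sub, map_add] at h1
  unfold form
  linear_combination h1

end forms

section val

variable {L : Type u} [Field L] (v : Valuation L ℤᵐ⁰)

lemma residue_zero (z : v.valuationSubring) (h : v (z : L) < 1) :
    IsLocalRing.residue v.valuationSubring z = 0 := by
  rw [IsLocalRing.residue_eq_zero_iff, IsLocalRing.mem_maximalIdeal, mem_nonunits_iff]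
  intro hz
  obtain ⟨w, hw⟩ := hz.exists_right_inv
  have h1 : v (z : L) * v (w : L) = 1 := by
    have h0 : (z : L) * (w : L) = 1 := by
      have := congrArg (fun t : v.valuationSubring => (t : L)) hw
      simpa using this
    rw [← map_mul, h0, map_one]
  have h2 : v (w : L) ≤ 1 := (Valuation.mem_valuationSubring_iff v _).1 w.2
  have h3 : v (z : L) * v (w : L) < 1 := mul_lt_one_of_lt_of_le h h2
  rw [h1] at h3
  exact lt_irrefl _ h3

lemma resUnit_val (x : Lˣ) (h : v (x : L) = 1) :
    ((resUnit v x h : (κ v)ˣ) : κ v) = IsLocalRing.residue v.valuationSubring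
      ⟨x, by rw [Valuation.mem_valuationSubring_iff, h]⟩ := rfl

lemma resUnit_mul (x y : Lˣ) (hx : v (x : L) = 1) (hy : v (y : L) = 1)
    (hxy : v ((x * y : Lˣ) : L) = 1) :
    resUnit v (x * y) hxy = resUnit v x hx * resUnit v y hy := by
  ext
  rw [Units.val_mul, resUnit_val, resUnit_val, resUnit_val, ← map_mul]
  rfl

lemma resUnit_congr (x y : Lˣ) (hx : v (x : L) = 1) (hy : v (y : L) = 1)
    (h : v ((x : L) - y) < 1) : resUnit v x hx = resUnit v y hy := by
  ext
  rw [resUnit_val, resUnit_val, ← sub_eq_zero, ← map_sub]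
  exact residue_zero v _ h

lemma resUnit_neg (x y : Lˣ) (hx : v (x : L) = 1) (hy : v (y : L) = 1)
    (h : v ((x : L) + y) < 1) : resUnit v y hy = - resUnit v x hx := by
  ext
  rw [Units.val_neg, resUnit_val, resUnit_val, eq_neg_iff_add_eq_zero, ← map_add]
  apply residue_zero v _
  rw [add_comm] at h
  exact h

lemma resUnit_add (x y z : Lˣ) (hx : v (x : L) = 1) (hy : v (y : L) = 1) (hz : v (z : L) = 1)
    (h : (x : L) + y = z) :
    ((resUnit v x hx : (κ v)ˣ) : κ v) + (resUnit v y hy : (κ v)ˣ) = (resUnit v z hz : (κ v)ˣ) := by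
  rw [resUnit_val, resUnit_val, resUnit_val, ← map_add]
  congr 1
  ext
  exact h

variable (π : Lˣ) (hπ : ord v π = 1)

include hπ in
lemma v_pi : v (π : L) = exp (-1) := by
  have h1 : v (π : L) ≠ 0 := (Valuation.ne_zero_iff v).2 π.ne_zero
  have : log (v (π : L)) = -1 := by unfold ord at hπ; omega
  rw [← this, exp_log h1]

include hπ in
lemma v_zpow (n : ℤ) : v ((π ^ n : Lˣ) : L) = exp (-n) := by
  rw [Units.val_zpow_eq_zpow_val, map_zpow₀, v_pi v π hπ, ← exp_zsmul]
  simp

include hπ in
lemma ord_eq (u : Lˣ) (n : ℤ) (hu : v (u : L) = 1) : ord v (u * π ^ n) = n := by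
  unfold ord
  rw [Units.val_mul, map_mul, hu, one_mul, v_zpow v π hπ, log_exp, neg_neg]

lemma res1_eq (a u : Lˣ) (n : ℤ) (hu : v (u : L) = 1) (h : a = u * π ^ n) :
    res1 v π hπ a = if Odd n then form (resUnit v u hu) else 0 := by
  have h1 : ord v a = n := by rw [h]; exact ord_eq v π hπ u n hu
  have h2 : a * π ^ (- ord v a) = u := by
    rw [h1, h, mul_assoc, ← zpow_add]; simp
  unfold res1
  simp only [h1]
  split_ifs with h3
  · congr 1
    apply resUnit_congr
    rw [← h1, h2, sub_self, map_zero]
    exact zero_lt_one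
  · rfl

include hπ in
lemma exists_unit (a : Lˣ) : ∃ (u : Lˣ) (n : ℤ), v (u : L) = 1 ∧ a = u * π ^ n := by
  refine ⟨a * π ^ (- ord v a), ord v a, v_unit_part v π hπ a, ?_⟩
  rw [mul_assoc, ← zpow_add]; simp

include hπ in
/-- The case of the order of `a` at most that of `b`. -/
lemma aux (u w : Lˣ) (n m : ℤ) (hu : v (u : L) = 1) (hw : v (w : L) = 1) (hnm : n ≤ m)
    (c : Lˣ) (hc : ((u * π ^ n : Lˣ) : L) + ((w * π ^ m : Lˣ) : L) = c) :
    res1 v π hπ (u * π ^ n) + res1 v π hπ (w * π ^ m) =
      res1 v π hπ c + res1 v π hπ ((u * π ^ n) * (w * π ^ m) * c) := by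
  have ha := res1_eq v π hπ (u * π ^ n) u n hu rfl
  have hb := res1_eq v π hπ (w * π ^ m) w m hw rfl
  -- `z = c π^(-n) = u + w π^(m-n)`
  obtain ⟨z, hz⟩ : ∃ z : Lˣ, z = c * π ^ (-n) := ⟨_, rfl⟩
  have hcz : c = z * π ^ n := by rw [hz, mul_assoc, ← zpow_add]; simp
  have hz1 : (z : L) = u + ((w * π ^ (m - n) : Lˣ) : L) := by
    rw [hz, Units.val_mul, ← hc, sub_eq_add_neg, zpow_add]
    push_cast
    have h0 : ((π : L) ^ n) * ((π : L) ^ (-n)) = 1 := by
      rw [← zpow_add₀ π.ne_zero]; simp
    linear_combination (u : L) * h0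
  have huw : v ((u * w : Lˣ) : L) = 1 := by rw [Units.val_mul, map_mul, hu, hw, one_mul]
  rcases lt_or_eq_of_le hnm with hlt | heq
  · -- different orders
    have h1 : v ((w * π ^ (m - n) : Lˣ) : L) < 1 := by
      rw [Units.val_mul, map_mul, hw, one_mul, v_zpow v π hπ, ← exp_zero, exp_lt_exp]
      omega
    have h2 : v (z : L) = 1 := by
      rw [hz1, Valuation.map_add_eq_of_lt_left v (by rw [hu]; exact h1), hu]
    have h3 : resUnit v z h2 = resUnit v u hu := by
      apply resUnit_congr
      rw [hz1, add_sub_cancel_left]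
      exact h1
    have h4 : v ((u * w * z : Lˣ) : L) = 1 := by
      rw [Units.val_mul, map_mul, huw, h2, one_mul]
    have h5 : (u * π ^ n) * (w * π ^ m) * c = (u * w * z) * π ^ (2 * n + m) := by
      rw [hcz, two_mul, zpow_add, zpow_add]
      simp only [mul_assoc, mul_comm, mul_left_comm]
    have hcc := res1_eq v π hπ c z n h2 hcz
    have habc := res1_eq v π hπ _ (u * w * z) (2 * n + m) h4 h5
    rw [ha, hb, hcc, habc, h3]
    have h6 : form (resUnit v (u * w * z) h4) = form (resUnit v w hw) := by
      rw [resUnit_mul v (u * w) z huw h2, resUnit_mul v u w hu hw, h3,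
        show resUnit v u hu * resUnit v w hw * resUnit v u hu =
          resUnit v w hw * resUnit v u hu ^ 2 by
            rw [pow_two]; simp only [mul_assoc, mul_comm, mul_left_comm]]
      exact form_sq _ _
    have h7 : Odd (2 * n + m) ↔ Odd m := by
      constructor
      · rintro ⟨k, hk⟩
        exact ⟨k - n, by omega⟩
      · rintro ⟨k, hk⟩
        exact ⟨k + n, by omega⟩
    rw [h6]
    simp only [h7]
  · subst heq
    rw [sub_self, zpow_zero, mul_one] at hz1
    have h8 : v (z : L) ≤ 1 := by
      rw [hz1]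
      refine (v.map_add _ _).trans ?_
      rw [hu, hw, max_self]
    rcases lt_or_eq_of_le h8 with hlt | h2
    · -- the sum of the unit parts is not a unit
      obtain ⟨t, k, ht, htk⟩ := exists_unit v π hπ z
      have h3 : resUnit v w hw = - resUnit v u hu := by
        apply resUnit_neg
        rw [← hz1]
        exact hlt
      have hct : c = t * π ^ (k + n) := by
        rw [hcz, htk, zpow_add, mul_assoc]
      have h4 : v ((u * w * t : Lˣ) : L) = 1 := by
        rw [Units.val_mul, map_mul, huw, ht, one_mul]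
      have h5 : (u * π ^ n) * (w * π ^ n) * c = (u * w * t) * π ^ (k + 3 * n) := by
        rw [hct, show k + 3 * n = n + n + (k + n) by ring, zpow_add π (n + n), zpow_add π n n]
        simp only [mul_assoc, mul_comm, mul_left_comm]
      have hcc := res1_eq v π hπ c t (k + n) ht hct
      have habc := res1_eq v π hπ _ (u * w * t) (k + 3 * n) h4 h5
      have h6 : form (resUnit v t ht) + form (resUnit v (u * w * t) h4) = 0 := by
        rw [resUnit_mul v (u * w) t huw ht, resUnit_mul v u w hu hw, h3,
          show resUnit v u hu * -resUnit v u hu * resUnit v t ht =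
            -resUnit v t ht * resUnit v u hu ^ 2 by
              rw [pow_two, mul_neg, neg_mul, neg_mul]
              congr 1
              exact mul_comm _ _]
        rw [form_sq]
        exact form_hyp _
      have h7 : Odd (k + 3 * n) ↔ Odd (k + n) := by
        constructor
        · rintro ⟨j, hj⟩
          exact ⟨j - n, by omega⟩
        · rintro ⟨j, hj⟩
          exact ⟨j + n, by omega⟩
      have hl : res1 v π hπ (u * π ^ n) + res1 v π hπ (w * π ^ n) = 0 := by
        rw [ha, hb, h3]
        split_ifs
        · exact form_hyp _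
        · exact add_zero _
      have hr : res1 v π hπ c + res1 v π hπ ((u * π ^ n) * (w * π ^ n) * c) = 0 := by
        rw [hcc, habc]
        simp only [h7]
        split_ifs
        · exact h6
        · exact add_zero _
      rw [hl, hr]
    · -- all three unit parts are units
      have h4 : v ((u * w * z : Lˣ) : L) = 1 := by
        rw [Units.val_mul, map_mul, huw, h2, one_mul]
      have h5 : (u * π ^ n) * (w * π ^ n) * c = (u * w * z) * π ^ (3 * n) := by
        rw [hcz, show 3 * n = n + n + n by ring, zpow_add π (n + n), zpow_add π n n]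
        simp only [mul_assoc, mul_comm, mul_left_comm]
      have hcc := res1_eq v π hπ c z n h2 hcz
      have habc := res1_eq v π hπ _ (u * w * z) (3 * n) h4 h5
      have h7 : Odd (3 * n) ↔ Odd n := by
        constructor
        · rintro ⟨j, hj⟩
          exact ⟨j - n, by omega⟩
        · rintro ⟨j, hj⟩
          exact ⟨j + n, by omega⟩
      rw [ha, hb, hcc, habc, resUnit_mul v (u * w) z huw h2, resUnit_mul v u w hu hw]
      simp only [h7]
      split_ifs
      · apply form_add
        exact resUnit_add v u w z hu hw h2 hz1.symm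
      · rfl

end val

theorem t_R2 : W548.MQ.S_R2.{u} := by
  intro L _ v π hπ a b c hab
  obtain ⟨u, n, hu, hua⟩ := exists_unit v π hπ a
  obtain ⟨w, m, hw, hwb⟩ := exists_unit v π hπ b
  subst hua hwb
  rcases le_total n m with h | h
  · exact aux v π hπ u w n m hu hw h c hab
  · have h1 := aux v π hπ w u m n hw hu h c (by rw [add_comm]; exact hab)
    rw [add_comm, h1]
    congr 2
    rw [mul_comm (w * π ^ m)]

end W289.MQ
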